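import Pool.Agent.H65.NV.PTargets
import Pool.Agent.H14.CM4.PN1

/-!
# Row P_DET of the board `nvk_modules`: the lattice of a principal ideal
-/

set_option autoImplicit false

open MeasureTheory Set Filter NumberField NumberField.InfinitePlace
open Pool.Agent.H65.CM4 Pool.Agent.H61.NVK Pool.Agent.H89.NV Pool.Agent.H65.NV
open scoped Real

namespace Pool.Agent.H21.NVP_DET

open Pool.Agent.H14.CM4 (ix ob Mt dk_eq mt_det)

/-- linear substitution -/
theorem subst {ι : Type} [Fintype ι] [DecidableEq ι] (A : Matrix ι ι ℝ) (hA : A.det ≠ 0)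
    (f : (ι → ℝ) → ℝ) : ∫ x, f (A.mulVec x) = (|A.det|)⁻¹ * ∫ v, f v := by
  have h1 := Real.map_matrix_volume_pi_eq_smul_volume_pi hA
  have hu : IsUnit A.det := hA.isUnit
  have hc1 : Continuous (fun x : ι → ℝ => A.mulVec x) :=
    (Matrix.toLin' A).continuous_of_finiteDimensional
  have hc2 : Continuous (fun x : ι → ℝ => A⁻¹.mulVec x) :=
    (Matrix.toLin' A⁻¹).continuous_of_finiteDimensional
  let T : (ι → ℝ) ≃ₜ (ι → ℝ) :=
    { toFun := fun x => A.mulVec x
      invFun := fun x => A⁻¹.mulVec x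
      left_inv := fun x => by
        show A⁻¹.mulVec (A.mulVec x) = x
        rw [Matrix.mulVec_mulVec, Matrix.nonsing_inv_mul _ hu, Matrix.one_mulVec]
      right_inv := fun x => by
        show A.mulVec (A⁻¹.mulVec x) = x
        rw [Matrix.mulVec_mulVec, Matrix.mul_nonsing_inv _ hu, Matrix.one_mulVec]
      continuous_toFun := hc1
      continuous_invFun := hc2 }
  have h2 := T.measurableEmbedding.integral_map (μ := volume) f
  have h3 : Measure.map (⇑T) volume = ENNReal.ofReal |A.det⁻¹| • volume := h1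
  rw [h3, integral_smul_measure, ENNReal.toReal_ofReal (abs_nonneg _), abs_inv] at h2
  exact h2.symm

/-- renaming of the coordinates -/
theorem reindex {ι κ : Type} [Fintype ι] [Fintype κ] (e : ι ≃ κ) (f : (κ → ℝ) → ℝ) :
    ∫ x : ι → ℝ, f (fun v => x (e.symm v)) = ∫ v, f v := by
  have h := volume_measurePreserving_piCongrLeft (fun _ : κ => ℝ) e
  have h2 := h.integral_comp (MeasurableEquiv.measurableEmbedding _) f
  rw [← h2]
  congr 1
  funext x
  congr 1
  funext v
  have h3 := MeasurableEquiv.piCongrLeft_apply_apply (β := fun _ : κ => ℝ) e x (e.symm v)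
  rw [Equiv.apply_symm_apply] at h3
  exact h3.symm

variable (k : Type) [Field k] [NumberField k] [IsTotallyReal k]

theorem pf_DET (hEMB : T_EMB k) (hEMS : T_EMS k) : T_DET k := by
  classical
  obtain ⟨s1, s2, s3, s4, s5, s6, s7, -⟩ := hEMS
  have hcard : Fintype.card (ix k) = Fintype.card (Pl k) := by
    rw [hEMB.1, ← Module.finrank_eq_card_chooseBasisIndex, RingOfIntegers.rank]
    rfl
  obtain ⟨e⟩ : Nonempty (ix k ≃ Pl k) := ⟨Fintype.equivOfCardEq hcard⟩
  refine ⟨ix k, inferInstance, inferInstance, fun i => ob k i,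
    1 + ∑ i, ∑ v, |em (ob k i) v|, ?_, ?_, ?_⟩
  · have : 0 ≤ ∑ i, ∑ v, |em (ob k i) v| :=
      Finset.sum_nonneg fun i _ => Finset.sum_nonneg fun v _ => abs_nonneg _
    linarith
  · intro i v
    have h1 : |em (ob k i) v| ≤ ∑ v, |em (ob k i) v| :=
      Finset.single_le_sum (f := fun v => |em (ob k i) v|) (fun v _ => abs_nonneg _)
        (Finset.mem_univ v)
    have h2 : ∑ v, |em (ob k i) v| ≤ ∑ i, ∑ v, |em (ob k i) v| :=
      Finset.single_le_sum (f := fun i => ∑ v, |em (ob k i) v|)
        (fun i _ => Finset.sum_nonneg fun v _ => abs_nonneg _) (Finset.mem_univ i)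
    linarith
  intro x hx
  obtain ⟨M, hM⟩ : ∃ M : Matrix (ix k) (ix k) ℝ, M = Matrix.of fun i j =>
    em x (e i) * Mt k e i j := ⟨_, rfl⟩
  have hMe : ∀ i j, M i j = em (x * ob k j) (e i) := by
    intro i j
    rw [hM, (s1 x (ob k j)).2.1]
    rfl
  have hMdet : |M.det| = Real.sqrt (dk k) * nm (Ideal.span {x}) := by
    rw [hM, Matrix.det_mul_column, abs_mul, Finset.abs_prod, s7 x, dk_eq hEMB e,
      Real.sqrt_sq_eq_abs, mul_comm]
    congr 1
    exact Equiv.prod_comp e (fun v => |em x v|)
  have hMd0 : M.det ≠ 0 := by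
    intro h
    rw [h, abs_zero, s7 x, dk_eq hEMB e, Real.sqrt_sq_eq_abs] at hMdet
    have h1 := mt_det hEMB e
    have h2 : 0 < ∏ v, |em x v| := Finset.prod_pos fun v _ => abs_pos.2 (s6 x v hx)
    have h3 : 0 < |(Mt k e).det| * ∏ v, |em x v| := mul_pos (by linarith) h2
    linarith
  have hu : IsUnit M.det := hMd0.isUnit
  have hsum : ∀ (t : ix k → ℝ) (i : ix k), ∑ j, t j * em (x * ob k j) (e i) = M.mulVec t i := by
    intro t i
    unfold Matrix.mulVec dotProduct
    refine Finset.sum_congr rfl fun j _ => ?_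
    show t j * em (x * ob k j) (e i) = M i j * t j
    rw [hMe, mul_comm]
  refine ⟨?_, ?_, ?_⟩
  · intro y hy
    obtain ⟨w, hw⟩ := Ideal.mem_span_singleton'.1 hy
    have hrep := (ob k).sum_repr w
    refine ⟨fun i => (ob k).repr w i, ?_, ?_⟩
    · show y = ∑ i, (((ob k).repr w i : ℤ) : 𝓞 k) * (x * ob k i)
      rw [← hw]
      conv_lhs => rw [← hrep]
      rw [Finset.sum_mul]
      refine Finset.sum_congr rfl fun i _ => ?_
      rw [zsmul_eq_mul]
      ring
    · intro z hz
      have h1 : w = ∑ i, z i • ob k i := by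
        have h2 : x * w = x * ∑ i, z i • ob k i := by
          rw [mul_comm x w, hw, hz, Finset.mul_sum]
          refine Finset.sum_congr rfl fun i _ => ?_
          rw [zsmul_eq_mul]
          ring
        exact mul_left_cancel₀ hx h2
      funext i
      rw [h1, (ob k).repr_sum_self]
  · intro p B
    have hbox : IsCompact (Set.pi univ fun i : ix k => Icc (-B - p (e i)) (B - p (e i))) :=
      isCompact_univ_pi fun i => isCompact_Icc
    have hc2 : Continuous (fun u : ix k → ℝ => M⁻¹.mulVec u) :=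
      (Matrix.toLin' M⁻¹).continuous_of_finiteDimensional
    have himg := hbox.image hc2
    have hset : {t : ix k → ℝ | ∀ v, |p v + ∑ i, t i * em (x * ob k i) v| ≤ B} =
        (fun u : ix k → ℝ => M⁻¹.mulVec u) ''
          (Set.pi univ fun i : ix k => Icc (-B - p (e i)) (B - p (e i))) := by
      ext t
      constructor
      · intro ht
        refine ⟨M.mulVec t, ?_, ?_⟩
        · intro i _
          have h1 := abs_le.1 (ht (e i))
          rw [hsum] at h1
          exact ⟨by linarith [h1.1], by linarith [h1.2]⟩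
        · show M⁻¹.mulVec (M.mulVec t) = t
          rw [Matrix.mulVec_mulVec, Matrix.nonsing_inv_mul _ hu, Matrix.one_mulVec]
      · rintro ⟨u, hu', rfl⟩
        intro v
        obtain ⟨i, rfl⟩ := e.surjective v
        have h1 := hu' i (mem_univ i)
        have h2 : M.mulVec (M⁻¹.mulVec u) = u := by
          rw [Matrix.mulVec_mulVec, Matrix.mul_nonsing_inv _ hu, Matrix.one_mulVec]
        have h3 := hsum (M⁻¹.mulVec u) i
        rw [h2] at h3
        show |p (e i) + ∑ j, (M⁻¹.mulVec u) j * em (x * ob k j) (e i)| ≤ B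
        rw [h3, abs_le]
        exact ⟨by linarith [h1.1], by linarith [h1.2]⟩
    rw [hset]
    exact himg
  · intro φ p
    have h1 : ∀ t : ix k → ℝ, φ (p + ∑ i, t i • em (x * ob k i)) =
        (fun u : ix k → ℝ => φ (p + fun v => u (e.symm v))) (M.mulVec t) := by
      intro t
      show _ = φ (p + fun v => (M.mulVec t) (e.symm v))
      congr 2
      funext v
      rw [← hsum, Equiv.apply_symm_apply, Finset.sum_apply]
      rfl
    have h2 := subst M hMd0 (fun u : ix k → ℝ => φ (p + fun v => u (e.symm v)))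
    have h3 := reindex e (fun w : Pl k → ℝ => φ (p + w))
    have h4 : ∫ w : Pl k → ℝ, φ (p + w) = ∫ u, φ u := integral_add_left_eq_self φ p
    calc ∫ t : ix k → ℝ, φ (p + ∑ i, t i • em (x * ob k i))
        = ∫ t : ix k → ℝ, (fun u : ix k → ℝ => φ (p + fun v => u (e.symm v))) (M.mulVec t) := by
          congr 1
          funext t
          exact h1 t
      _ = (|M.det|)⁻¹ * ∫ u : ix k → ℝ, φ (p + fun v => u (e.symm v)) := h2
      _ = (1 / (Real.sqrt (dk k) * nm (Ideal.span {x}))) * ∫ u, φ u := by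
          rw [h3, h4, hMdet, one_div]

end Pool.Agent.H21.NVP_DET
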